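import Pool.Agent.Helper70.KN.Goals

/-!
# Packet KN-TH (MP_20ee5e_ag): thickness
-/

set_option autoImplicit false

open MeasureTheory Set

namespace Pool.Agent.Helper73.KN.TH

open Pool.Agent.Helper70.KN

theorem t : S_TH := by
  classical
  intro N V c hV x i hx hxi hxc
  obtain ⟨-, hc, -, hthick⟩ := hV
  obtain ⟨z, hz, hzx⟩ := hx
  obtain ⟨f, hf⟩ : ∃ f : (Fin N → ℕ) → (Fin N → ℝ), f = fun v i => (v i : ℝ) := ⟨_, rfl⟩
  rw [← hf] at hz
  have himg : f '' (V : Set (Fin N → ℕ)) = ((V.image f : Finset (Fin N → ℝ)) : Set (Fin N → ℝ)) := by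
    rw [Finset.coe_image]
  rw [himg, Finset.mem_convexHull'] at hz
  obtain ⟨w, hw0, hw1, hwz⟩ := hz
  set s := V.image f with hs
  have hs0 : ∀ y ∈ s, ∀ k, 0 ≤ y k := by
    intro y hy k
    rw [hs, Finset.mem_image] at hy
    obtain ⟨v, -, rfl⟩ := hy
    rw [hf]
    exact Nat.cast_nonneg _
  have hsc : ∀ y ∈ s, y i ≠ 0 → c ≤ y i := by
    intro y hy hyi
    rw [hs, Finset.mem_image] at hy
    obtain ⟨v, hv, rfl⟩ := hy
    rw [hf] at hyi ⊢
    exact hthick v hv i (by intro h; apply hyi; simp [h])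
  have hzk : ∀ k, z k = ∑ y ∈ s, w y * y k := by
    intro k
    rw [← hwz, Finset.sum_apply]
    rfl
  set F := s.filter (fun y => y i = 0) with hF
  set G := s.filter (fun y => ¬ y i = 0) with hG
  have hsplit : ∑ y ∈ F, w y + ∑ y ∈ G, w y = 1 := by
    rw [← hw1, hF, hG, Finset.sum_filter_add_sum_filter_not]
  have hGle : (∑ y ∈ G, w y) * c ≤ x i := by
    calc (∑ y ∈ G, w y) * c = ∑ y ∈ G, w y * c := Finset.sum_mul _ _ _
      _ ≤ ∑ y ∈ G, w y * y i := by
          refine Finset.sum_le_sum fun y hy => ?_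
          rw [hG, Finset.mem_filter] at hy
          exact mul_le_mul_of_nonneg_left (hsc y hy.1 hy.2) (hw0 y hy.1)
      _ ≤ ∑ y ∈ s, w y * y i := by
          refine Finset.sum_le_sum_of_subset_of_nonneg (Finset.filter_subset _ _) fun y hy _ => ?_
          exact mul_nonneg (hw0 y hy) (hs0 y hy i)
      _ = z i := (hzk i).symm
      _ ≤ x i := hzx i
  set B := ∑ y ∈ F, w y with hB
  have hlam : 0 < 1 - x i / c := by
    rw [sub_pos, div_lt_one hc]; exact hxc
  have hBl : 1 - x i / c ≤ B := by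
    have : ∑ y ∈ G, w y ≤ x i / c := by rw [le_div_iff₀ hc]; exact hGle
    linarith
  have hB0 : 0 < B := lt_of_lt_of_le hlam hBl
  refine ⟨∑ y ∈ F, (w y / B) • y, ?_, ?_⟩
  · rw [← hf, himg]
    refine (convex_convexHull ℝ _).sum_mem ?_ ?_ ?_
    · intro y hy
      rw [hF, Finset.mem_filter] at hy
      exact div_nonneg (hw0 y hy.1) hB0.le
    · rw [← Finset.sum_div, ← hB, div_self hB0.ne']
    · intro y hy
      rw [hF, Finset.mem_filter] at hy
      exact subset_convexHull ℝ _ (Finset.mem_coe.2 hy.1)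
  · intro k
    have e : (∑ y ∈ F, (w y / B) • y) k = (∑ y ∈ F, w y * y k) / B := by
      rw [Finset.sum_apply, Finset.sum_div]
      refine Finset.sum_congr rfl fun y _ => ?_
      rw [Pi.smul_apply, smul_eq_mul]; ring
    show (∑ y ∈ F, (w y / B) • y) k ≤ if k = i then (0 : ℝ) else x k / (1 - x i / c)
    rw [e]
    split_ifs with hk
    · rw [hk]
      have h0 : ∑ y ∈ F, w y * y i = 0 := by
        refine Finset.sum_eq_zero fun y hy => ?_
        rw [hF, Finset.mem_filter] at hy
        rw [hy.2, mul_zero]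
      rw [h0, zero_div]
    · have h1 : ∑ y ∈ F, w y * y k ≤ z k := by
        rw [hzk k]
        refine Finset.sum_le_sum_of_subset_of_nonneg (Finset.filter_subset _ _) fun y hy _ => ?_
        exact mul_nonneg (hw0 y hy) (hs0 y hy k)
      have h2 : 0 ≤ ∑ y ∈ F, w y * y k := by
        refine Finset.sum_nonneg fun y hy => ?_
        rw [hF, Finset.mem_filter] at hy
        exact mul_nonneg (hw0 y hy.1) (hs0 y hy.1 k)
      calc (∑ y ∈ F, w y * y k) / B ≤ (∑ y ∈ F, w y * y k) / (1 - x i / c) :=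
            div_le_div_of_nonneg_left h2 hlam hBl
        _ ≤ x k / (1 - x i / c) := by
            refine div_le_div_of_nonneg_right ?_ hlam.le
            exact h1.trans (hzx k)

end Pool.Agent.Helper73.KN.TH
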