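import Pool.Agent.Helper26.KN.Goals

/-! Packet J: the key inequality from the three-terminal functional. -/

namespace KN.PkJ

open Finset PowerSeries Pool.Agent.Helper97.RCK

variable {H Z : PowerSeries ℝ} {N : ℕ}

theorem T3_mono (hH : ∀ a, 0 < coeff a H) (hZ : ∀ R, 0 < coeff R Z) {f g : ℕ → ℕ → ℕ → ℝ}
    (h : ∀ a b c, a + b + c ≤ N → f a b c ≤ g a b c) : T3 H Z N f ≤ T3 H Z N g := by
  unfold T3
  refine Finset.sum_le_sum fun x hx => Finset.sum_le_sum fun y hy =>
    Finset.sum_le_sum fun z hz => ?_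
  rw [HasAntidiagonal.mem_antidiagonal] at hx hy hz
  refine mul_le_mul_of_nonneg_left (h _ _ _ (by omega)) ?_
  have h1 := hZ x.1
  have h2 := hH y.1
  have h3 := hH z.1
  have h4 := hH z.2
  positivity

theorem T3_add (f g : ℕ → ℕ → ℕ → ℝ) :
    T3 H Z N (fun a b c => f a b c + g a b c) = T3 H Z N f + T3 H Z N g := by
  simp only [T3, mul_add, Finset.sum_add_distrib]

theorem T3_sub (f g : ℕ → ℕ → ℕ → ℝ) :
    T3 H Z N (fun a b c => f a b c - g a b c) = T3 H Z N f - T3 H Z N g := by
  simp only [T3, mul_sub, Finset.sum_sub_distrib]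

theorem T3_smul (r : ℝ) (f : ℕ → ℕ → ℕ → ℝ) :
    T3 H Z N (fun a b c => r * f a b c) = r * T3 H Z N f := by
  simp only [T3, Finset.mul_sum]
  refine Finset.sum_congr rfl fun x _ => Finset.sum_congr rfl fun y _ =>
    Finset.sum_congr rfl fun z _ => ?_
  ring

theorem ee_prod {lam : ℝ} (hl : 0 < lam) (a b c : ℕ) :
    (1 + ee lam a) * (1 + ee lam b) * (1 + ee lam c) =
      Real.exp (Real.log lam * ((a + b + c : ℝ) + 3)) := by
  have h1 : Real.exp (Real.log lam * ((a + b + c : ℝ) + 3)) = lam ^ (a + b + c + 3) := by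
    have : Real.log lam * ((a + b + c : ℝ) + 3) = ((a + b + c + 3 : ℕ) : ℝ) * Real.log lam := by
      push_cast; ring
    rw [this, Real.exp_nat_mul, Real.exp_log hl]
  rw [h1]
  unfold ee
  ring

theorem ee_nonneg {lam : ℝ} (hl : 1 < lam) (a : ℕ) : 0 ≤ ee lam a := by
  unfold ee
  have := one_le_pow₀ hl.le (n := a + 1)
  linarith

theorem sg_nonneg {x y z : ℝ} (hx : 0 ≤ x) (hy : 0 ≤ y) (hz : 0 ≤ z) : 0 ≤ sg x y z := by
  unfold sg
  positivity

theorem jj : G_POS → G_T3 → G_CH → G_PH → G_PT → G_PI → G_FIN → G_J := by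
  intro hPOS hT3 hCH hPH hPT hPI hFIN lam q H Z hlam hq hq1 hHP hZP N
  obtain ⟨hH, hZ⟩ := hPOS lam q H Z hlam hq hHP hZP
  obtain ⟨t1, t2, t3, t4, t5⟩ := hT3 lam q H Z hHP hZP N
  obtain ⟨c1, c2, c3⟩ := hCH lam q H Z hlam hq hHP hZP N
  have hg : 0 < ga H Z N := by
    rw [← t1]
    unfold T3
    refine Finset.sum_pos (fun x _ => Finset.sum_pos (fun y _ => Finset.sum_pos (fun z _ => ?_)
      ?_) ?_) ?_
    · have h1 := hZ x.1
      have h2 := hH y.1
      have h3 := hH z.1
      have h4 := hH z.2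
      positivity
    · exact ⟨(0, y.2), by simp⟩
    · exact ⟨(0, x.2), by simp⟩
    · exact ⟨(0, N), by simp⟩
  have hal : 0 ≤ al H Z N := by
    rw [← t3]
    have h0 : T3 H Z N (fun _ _ _ => 0) = 0 := by simp [T3]
    rw [← h0]
    exact T3_mono hH hZ fun a b c _ =>
      sg_nonneg (ee_nonneg hlam a) (ee_nonneg hlam b) (ee_nonneg hlam c)
  have htau : 0 < Real.log lam := Real.log_pos hlam
  have htau1 : Real.log lam ≤ lam - 1 := Real.log_le_sub_one_of_pos (by linarith)
  generalize htt : Real.log lam = tau at *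
  have hprod : ∀ a b c : ℕ, (1 + ee lam a) * (1 + ee lam b) * (1 + ee lam c) =
      Real.exp (tau * ((a + b + c : ℝ) + 3)) := by
    intro a b c
    rw [← htt]
    exact ee_prod (by linarith) a b c
  generalize hgg : ga H Z N = g at *
  generalize hmm : mu lam H Z N = u at *
  generalize hbb : be lam H Z N = b at *
  generalize haa : al H Z N = A at *
  -- numbers
  have hN : (0 : ℝ) ≤ N := Nat.cast_nonneg N
  have hn : (0 : ℝ) < (N : ℝ) + 3 := by linarith
  have key1 : (Real.exp (tau * (3 + u / g) / 3) - 1) * g ≤ b := by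
    set x : ℝ := tau * (3 + u / g) with hx
    have hxg : x * g = tau * (3 * g + u) := by rw [hx]; field_simp
    have hm := T3_mono (N := N) hH hZ
      (f := fun a b c => 3 * Real.exp (x / 3) * 1 - 3 * 1 +
        (Real.exp (x / 3) * (tau * ((a + b + c : ℝ) + 3 * 1)) - Real.exp (x / 3) * x * 1))
      (g := fun a b c => ee lam a + ee lam b + ee lam c) (by
        intro a b c _
        have h3 := (hPT (ee lam a) (ee lam b) (ee lam c) _ (ee_nonneg hlam a) (ee_nonneg hlam b)
          (ee_nonneg hlam c) (hprod a b c)).2.2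
        refine le_trans ?_ h3
        have h4 : Real.exp (tau * ((a + b + c : ℝ) + 3) / 3) =
            Real.exp (x / 3) * Real.exp (tau * ((a + b + c : ℝ) + 3) / 3 - x / 3) := by
          rw [← Real.exp_add]; congr 1; ring
        have h5 := Real.add_one_le_exp (tau * ((a + b + c : ℝ) + 3) / 3 - x / 3)
        have h6 := mul_le_mul_of_nonneg_left h5 (Real.exp_pos (x / 3)).le
        rw [h4]
        linarith)
    have e1 : T3 H Z N (fun a b c => 3 * Real.exp (x / 3) * 1 - 3 * 1 +
        (Real.exp (x / 3) * (tau * ((a + b + c : ℝ) + 3 * 1)) - Real.exp (x / 3) * x * 1)) =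
        3 * Real.exp (x / 3) * g - 3 * g + (Real.exp (x / 3) * (tau * (u + 3 * g)) -
          Real.exp (x / 3) * x * g) := by
      rw [T3_add, T3_sub, T3_sub, T3_smul, T3_smul (3 : ℝ), T3_smul (Real.exp (x / 3)),
        T3_smul tau, T3_add, T3_smul (3 : ℝ), T3_smul (Real.exp (x / 3) * x), t1, t4]
    rw [e1, t2] at hm
    have : Real.exp (x / 3) * (tau * (u + 3 * g)) - Real.exp (x / 3) * x * g = 0 := by
      have : Real.exp (x / 3) * (tau * (u + 3 * g)) - Real.exp (x / 3) * x * g =
        Real.exp (x / 3) * (tau * (3 * g + u) - x * g) := by ring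
      rw [this, hxg, sub_self, mul_zero]
    linarith
  have hMg : (3 + u / g) * g = 3 * g + u := by field_simp
  have hM3 : 3 ≤ 3 + u / g := by have := div_nonneg c2 hg.le; linarith
  have hMn : 3 + u / g ≤ (N : ℝ) + 3 := by
    have : u / g ≤ N := by rw [div_le_iff₀ hg]; linarith
    linarith
  have c1' : 3 * (lam - 1) * (3 + u / g) * ((N : ℝ) + 3 - (3 + u / g)) ≤ 4 * q * (u / g) := by
    have h1 : 3 * (lam - 1) * (3 + u / g) * ((N : ℝ) + 3 - (3 + u / g)) =
        3 * (lam - 1) * (3 * g + u) * (N * g - u) / g ^ 2 := by field_simp; ring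
    have h2 : 4 * q * (u / g) = 4 * q * g * u / g ^ 2 := by field_simp
    rw [h1, h2]
    exact div_le_div_of_nonneg_right c1 (by positivity)
  have c1'' : 3 * tau * (3 + u / g) * ((N : ℝ) + 3 - (3 + u / g)) ≤ 4 * q * (u / g) := by
    refine le_trans ?_ c1'
    have h1 : 0 ≤ (3 + u / g) * ((N : ℝ) + 3 - (3 + u / g)) :=
      mul_nonneg (by linarith) (by linarith)
    nlinarith
  -- the main family of inequalities
  have keyi : ∀ K eta : ℝ, 0 ≤ eta →
      (Real.exp (3 * (((N : ℝ) + 3) * tau / 3)) - 1) / 3 - eta * (1 - 3 * (((N : ℝ) + 3) * tau / 3) /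
        (Real.exp (3 * (((N : ℝ) + 3) * tau / 3)) - 1)) ≤ K →
      (3 * (Real.exp (((N : ℝ) + 3) * tau / 3) - 1) +
        (Real.exp (3 * (((N : ℝ) + 3) * tau / 3)) - 1)) / 6 -
        eta * (1 - (((N : ℝ) + 3) * tau / 3) / (Real.exp (((N : ℝ) + 3) * tau / 3) - 1)) ≤ K →
      A ≤ K * ((3 * b * ((N : ℝ) + 3) - q * u) / ((N : ℝ) + 3)) +
        eta * (3 * b - tau * (3 * g + u)) := by
    intro K eta heta hK1 hK2
    have hm := T3_mono (N := N) hH hZ
      (f := fun a b c => sg (ee lam a) (ee lam b) (ee lam c))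
      (g := fun a b c => K / ((N : ℝ) + 3) * ((a + b + c : ℝ) * (ee lam a + ee lam b + ee lam c) +
        3 * (ee lam a + ee lam b + ee lam c)) +
        eta * ((ee lam a + ee lam b + ee lam c) - tau * ((a + b + c : ℝ) + 3 * 1))) (by
        intro a b c habc
        have hc : (a + b + c : ℝ) ≤ N := by exact_mod_cast habc
        have h0 : (0 : ℝ) ≤ (a + b + c : ℝ) := by positivity
        have h := hPI (((N : ℝ) + 3) * tau / 3) (tau * ((a + b + c : ℝ) + 3)) K eta
          (ee lam a) (ee lam b) (ee lam c) (by positivity) (by positivity)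
          (by nlinarith) heta hK1 hK2 (ee_nonneg hlam a) (ee_nonneg hlam b)
          (ee_nonneg hlam c) (hprod a b c)
        refine le_trans h (le_of_eq ?_)
        field_simp)
    have e1 : T3 H Z N (fun a b c => K / ((N : ℝ) + 3) *
        ((a + b + c : ℝ) * (ee lam a + ee lam b + ee lam c) +
        3 * (ee lam a + ee lam b + ee lam c)) +
        eta * ((ee lam a + ee lam b + ee lam c) - tau * ((a + b + c : ℝ) + 3 * 1))) =
        K / ((N : ℝ) + 3) * ((N * (3 * b) - q * u) + 3 * (3 * b)) +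
          eta * (3 * b - tau * (u + 3 * g)) := by
      rw [T3_add, T3_smul (K / ((N : ℝ) + 3)), T3_add, T3_smul (3 : ℝ), t5, t2, T3_smul eta,
        T3_sub, t2, T3_smul tau, T3_add, T3_smul (3 : ℝ), t1, t4]
    rw [e1, t3] at hm
    refine le_trans hm (le_of_eq ?_)
    field_simp
    ring
  have key4 : 3 * b ≤ (Real.exp (3 * (((N : ℝ) + 3) * tau / 3)) - 1) *
      (tau * (3 * g + u) / (3 * (((N : ℝ) + 3) * tau / 3))) := by
    have hm := T3_mono (N := N) hH hZ
      (f := fun a b c => ee lam a + ee lam b + ee lam c)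
      (g := fun a b c => (Real.exp (3 * (((N : ℝ) + 3) * tau / 3)) - 1) *
        (tau / (3 * (((N : ℝ) + 3) * tau / 3))) * ((a + b + c : ℝ) + 3 * 1)) (by
        intro a b c habc
        have hc : (a + b + c : ℝ) ≤ N := by exact_mod_cast habc
        have h0 : (0 : ℝ) ≤ (a + b + c : ℝ) := by positivity
        have h3 := (hPT (ee lam a) (ee lam b) (ee lam c) _ (ee_nonneg hlam a) (ee_nonneg hlam b)
          (ee_nonneg hlam c) (hprod a b c)).2.1
        have h4 := (hPH (tau * ((a + b + c : ℝ) + 3)) (3 * (((N : ℝ) + 3) * tau / 3))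
          (by positivity) (by nlinarith)).2
        refine le_trans h3 (le_trans h4 (le_of_eq ?_))
        ring)
    rw [t2, T3_smul, T3_add, T3_smul (3 : ℝ), t1, t4] at hm
    refine le_trans hm (le_of_eq ?_)
    ring
  have hfin := hFIN (((N : ℝ) + 3) * tau / 3) (tau * (3 + u / g)) q (b / g) (A / g)
    (by positivity) (mul_pos htau (by linarith)) (by nlinarith)
    (by
      have h1 : (3 + u / g) * (3 / 4 * (3 * (((N : ℝ) + 3) * tau / 3) - tau * (3 + u / g))) ≤
          (3 + u / g) * q := by nlinarith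
      exact le_of_mul_le_mul_left h1 (by linarith))
    hq1
    (by rw [le_div_iff₀ hg]; exact key1)
    (by
      have h1 : 3 * (b / g) = 3 * b / g := by ring
      rw [h1, div_le_iff₀ hg]
      refine le_trans key4 (le_of_eq ?_)
      rw [← hMg]
      ring)
    (div_nonneg hal hg.le)
    (by
      intro K eta hK heta hK1 hK2
      have h1 := keyi K eta heta hK1 hK2
      rw [div_le_iff₀ hg]
      refine le_trans h1 ?_
      have h2 : eta * (3 * b - tau * (3 * g + u)) =
          eta * (3 * (b / g) - tau * (3 + u / g)) * g := by field_simp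
      have h3 : (3 * b * ((N : ℝ) + 3) - q * u) / ((N : ℝ) + 3) ≤
          (3 * (b / g) - 3 / 4 * (3 * (((N : ℝ) + 3) * tau / 3) - tau * (3 + u / g)) *
            (tau * (3 + u / g) / (3 * (((N : ℝ) + 3) * tau / 3)))) * g := by
        have h4 : (3 * b * ((N : ℝ) + 3) - q * u) / ((N : ℝ) + 3) =
            (3 * (b / g) - (q * (u / g)) / ((N : ℝ) + 3)) * g := by field_simp
        have h5 : 3 / 4 * (3 * (((N : ℝ) + 3) * tau / 3) - tau * (3 + u / g)) *
            (tau * (3 + u / g) / (3 * (((N : ℝ) + 3) * tau / 3))) =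
            (3 / 4 * tau * (3 + u / g) * ((N : ℝ) + 3 - (3 + u / g))) / ((N : ℝ) + 3) := by
          field_simp
          try ring
        rw [h4, h5]
        refine mul_le_mul_of_nonneg_right ?_ hg.le
        have h6 : (3 / 4 * tau * (3 + u / g) * ((N : ℝ) + 3 - (3 + u / g))) / ((N : ℝ) + 3) ≤
            (q * (u / g)) / ((N : ℝ) + 3) := by
          refine div_le_div_of_nonneg_right ?_ hn.le
          linarith
        linarith
      have h7 := mul_le_mul_of_nonneg_left h3 hK
      rw [h2, add_mul]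
      have h8 : K * ((3 * (b / g) - 3 / 4 * (3 * (((N : ℝ) + 3) * tau / 3) - tau * (3 + u / g)) *
            (tau * (3 + u / g) / (3 * (((N : ℝ) + 3) * tau / 3)))) * g) =
          K * (3 * (b / g) - 3 / 4 * (3 * (((N : ℝ) + 3) * tau / 3) - tau * (3 + u / g)) *
            (tau * (3 + u / g) / (3 * (((N : ℝ) + 3) * tau / 3)))) * g := by ring
      linarith)
  have hg2 : 0 < g ^ 2 := by positivity
  have h1 := mul_le_mul_of_nonneg_right hfin hg2.le
  have e1 : A / g * ((1 - q) * (4 + q) - 2 * (1 + q) * (b / g)) * g ^ 2 =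
      (1 - q) * (4 + q) * A * g - 2 * (1 + q) * A * b := by field_simp
  have e2 : (12 * (b / g) ^ 2 + 2 * q * (1 + q) * (b / g)) * g ^ 2 =
      12 * b ^ 2 + 2 * q * (1 + q) * b * g := by field_simp
  rw [e1, e2] at h1
  linarith

end KN.PkJ
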